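import Pool.Agent.R893.GP.Final

/-!
MP_7fd0c9_ag, Q1 and Q2: for every `a` the set `S(a)` is finite, with the bound
`b ≤ a ^ 2 - a + 1`; every `(a, b)`-geproci set with `b > a ^ 2 - a + 1` which does not lie in a
plane has `b` points on each of `a` pairwise disjoint lines.
-/

set_option autoImplicit false

open scoped LinearAlgebra.Projectivization
open Pool.Agent.R862.GU Pool.Agent.R893.GP

namespace Pool.Agent.Results.MP_7fd0c9_ag.SkewLines

/-- Let `Z` be an `(a, b)`-geproci set in `ℙ^3` which is not contained in a plane, with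
`b > a ^ 2 - a + 1`. Then there are `a` pairwise disjoint lines containing `Z`, with exactly `b`
points of `Z` on each of them. In particular `S(a)` is finite for every `a`: each nontrivial
`(a, b)`-geproci set which is not contained in `a` skew lines satisfies `b ≤ a ^ 2 - a + 1`. -/
theorem result :
    (∀ (a b : ℕ) (Z : Set (ℙ ℂ (Fin 4 → ℂ))), IsGeproci a b Z → ¬ IsDegenerate Z →
      a ^ 2 + 1 < a + b →
      ∃ L : Fin a → Submodule ℂ (Fin 4 → ℂ), (∀ i, Module.finrank ℂ (L i) = 2) ∧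
        (∀ i j, i ≠ j → L i ⊓ L j = ⊥) ∧ (∀ z ∈ Z, ∃ i, z.submodule ≤ L i) ∧
        ∀ i, {z | z ∈ Z ∧ z.submodule ≤ L i}.ncard = b) ∧
    (∀ a : ℕ, (Sset a).Finite) ∧
    ∀ (a b : ℕ) (Z : Set (ℙ ℂ (Fin 4 → ℂ))), Nontriv a b Z → ¬ OnSkewLines a Z →
      a + b ≤ a ^ 2 + 1 := by
  have h1 : ∀ (a b : ℕ) (Z : Set (ℙ ℂ (Fin 4 → ℂ))), IsGeproci a b Z → ¬ IsDegenerate Z →
      a ^ 2 + 1 < a + b →
      ∃ L : Fin a → Submodule ℂ (Fin 4 → ℂ), (∀ i, Module.finrank ℂ (L i) = 2) ∧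
        (∀ i j, i ≠ j → L i ⊓ L j = ⊥) ∧ (∀ z ∈ Z, ∃ i, z.submodule ≤ L i) ∧
        ∀ i, {z | z ∈ Z ∧ z.submodule ≤ L i}.ncard = b := fun a b Z hZ hnd hab =>
    lines_of_main2 main2 a b Z (by rw [← sq]; exact hab) hZ hnd
  have h2 : ∀ (a b : ℕ) (Z : Set (ℙ ℂ (Fin 4 → ℂ))), Nontriv a b Z → ¬ OnSkewLines a Z →
      a + b ≤ a ^ 2 + 1 := by
    intro a b Z hZ hno
    by_contra hlt
    push Not at hlt
    obtain ⟨L, h3, h4, h5, -⟩ := h1 a b Z hZ.1 hZ.2.1 hlt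
    exact hno ⟨L, h3, h4, h5⟩
  refine ⟨h1, fun a => (Set.finite_Iic (a ^ 2 + 1)).subset ?_, h2⟩
  rintro b ⟨-, Z, hZ, hno⟩
  have := h2 a b Z hZ hno
  exact Set.mem_Iic.2 (by omega)

end Pool.Agent.Results.MP_7fd0c9_ag.SkewLines
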